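import Pool.Agent.Helper47_CNED.Fub

/-!
Module GAD of squad CNED (MP_f60983_an): the gadget inequality in standard coordinates.
-/

open MeasureTheory Set Topology Filter

open scoped ENNReal

noncomputable section

namespace Pool.Agent.Helper83_CNED.H59

open Pool.Agent.Helper83_CNED

theorem volume_ob (a b : Fin 3 → ℝ) : volume (ob a b) = ∏ j, ENNReal.ofReal (b j - a j) := by
  have hmp := PiLp.volume_preserving_toLp (Fin 3)
  rw [← hmp.measure_preimage (measurableSet_ob a b).nullMeasurableSet]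
  have h : (WithLp.toLp 2 : (Fin 3 → ℝ) → Eu 3) ⁻¹' (ob a b) =
      Set.pi univ (fun j => Ioo (a j) (b j)) := by
    ext z
    simp [ob]
  rw [h, Real.volume_pi_Ioo]

theorem volume_ob_ne_top (a b : Fin 3 → ℝ) : volume (ob a b) ≠ ⊤ := by
  rw [volume_ob]
  exact ENNReal.prod_ne_top (fun j _ => ENNReal.ofReal_ne_top)

theorem volume_Q : volume Q = 1 := by
  unfold Q
  rw [volume_ob]
  simp

/-- Tonelli for lines -/
theorem ton {F : Eu 3 → ℝ≥0∞} (hF : Measurable F) (i : Fin 3) (a b : Fin 3 → ℝ) (s t : ℝ) :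
    ∫⁻ p in ob a b, ∫⁻ r in Ioo s t, F (line p i r) =
      ENNReal.ofReal (b i - a i) *
        ∫⁻ p in ob (Function.update a i s) (Function.update b i t), F p := by
  have hm : Measurable (fun q : Eu 3 × ℝ => F (line q.1 i q.2)) := H47.measurable_Gline hF i
  have hS : MeasurableSet ((ob a b) ×ˢ (Ioo s t)) := (measurableSet_ob a b).prod measurableSet_Ioo
  have hΦ := hm.indicator hS
  have e1 : ∫⁻ p in ob a b, ∫⁻ r in Ioo s t, F (line p i r) =
      ∫⁻ p, ∫⁻ r, ((ob a b) ×ˢ (Ioo s t)).indicator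
        (fun q : Eu 3 × ℝ => F (line q.1 i q.2)) (p, r) := by
    rw [← lintegral_indicator (measurableSet_ob a b)]
    apply lintegral_congr
    intro p
    by_cases hp : p ∈ ob a b
    · rw [indicator_of_mem hp, ← lintegral_indicator measurableSet_Ioo]
      apply lintegral_congr
      intro r
      by_cases hr : r ∈ Ioo s t
      · rw [indicator_of_mem hr, indicator_of_mem (show (p, r) ∈ (ob a b) ×ˢ (Ioo s t) from ⟨hp, hr⟩)]
      · rw [indicator_of_notMem hr, indicator_of_notMem (fun h => hr h.2)]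
    · rw [indicator_of_notMem hp]
      have h0 : (fun r => ((ob a b) ×ˢ (Ioo s t)).indicator
          (fun q : Eu 3 × ℝ => F (line q.1 i q.2)) (p, r)) = fun _ => 0 := by
        funext r
        exact indicator_of_notMem (fun h => hp h.1) _
      rw [h0, lintegral_zero]
  rw [e1, H47.swap i _ hΦ, ← lintegral_const_mul _ hF,
    ← lintegral_indicator (measurableSet_ob _ _)]
  apply lintegral_congr
  intro x
  by_cases hx : x ∈ ob (Function.update a i s) (Function.update b i t)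
  · rw [indicator_of_mem hx]
    have hxi : x i ∈ Ioo s t := by
      have h := hx i
      rw [Function.update_self, Function.update_self] at h
      exact h
    have h1 : (fun r => ((ob a b) ×ˢ (Ioo s t)).indicator
        (fun q : Eu 3 × ℝ => F (line q.1 i q.2)) (line x i r, x i)) =
        (Ioo (a i) (b i)).indicator (fun _ => F x) := by
      funext r
      by_cases hr : r ∈ Ioo (a i) (b i)
      · have h2 : (line x i r, x i) ∈ (ob a b) ×ˢ (Ioo s t) := by
          refine ⟨?_, hxi⟩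
          intro j
          by_cases hj : j = i
          · subst hj
            simp only [line_same]
            exact hr
          · simp only [line_ne x hj]
            have h := hx j
            rw [Function.update_of_ne hj, Function.update_of_ne hj] at h
            exact h
        rw [indicator_of_mem h2, indicator_of_mem hr]
        simp only [line_line, line_self]
      · rw [indicator_of_notMem hr, indicator_of_notMem]
        intro h
        apply hr
        have h2 := h.1 i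
        simp only [line_same] at h2
        exact h2
    rw [h1, lintegral_indicator measurableSet_Ioo, setLIntegral_const, Real.volume_Ioo, mul_comm]
  · rw [indicator_of_notMem hx]
    have h0 : (fun r => ((ob a b) ×ˢ (Ioo s t)).indicator
        (fun q : Eu 3 × ℝ => F (line q.1 i q.2)) (line x i r, x i)) = fun _ => 0 := by
      funext r
      apply indicator_of_notMem
      intro h
      apply hx
      intro j
      by_cases hj : j = i
      · subst hj
        rw [Function.update_self, Function.update_self]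
        exact h.2
      · rw [Function.update_of_ne hj, Function.update_of_ne hj]
        have h2 := h.1 j
        simp only [line_ne x hj] at h2
        exact h2
    rw [h0, lintegral_zero]

/-- a bound on an open square extends to the closed square -/
theorem closed_sq {f : ℝ × ℝ → ℝ≥0∞} (hf : Continuous f) {C : ℝ≥0∞} {a b : ℝ} (hab : a < b)
    (h : ∀ q : ℝ × ℝ, q ∈ Ioo a b ×ˢ Ioo a b → f q ≤ C) {s t : ℝ} (hs : s ∈ Icc a b)
    (ht : t ∈ Icc a b) : f (s, t) ≤ C := by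
  have hcl : IsClosed {q : ℝ × ℝ | f q ≤ C} := isClosed_le hf continuous_const
  have hc : closure (Ioo a b ×ˢ Ioo a b) ⊆ {q : ℝ × ℝ | f q ≤ C} :=
    hcl.closure_subset_iff.2 (fun q hq => h q hq)
  rw [closure_prod_eq, closure_Ioo hab.ne] at hc
  have hm : (s, t) ∈ Icc a b ×ˢ Icc a b := Set.mk_mem_prod hs ht
  exact hc hm

/-- the bound on the closed segment -/
theorem ug_close {h : Eu 3 → Eu 3} (hh : Continuous h) {G : Eu 3 → ℝ≥0∞} {i : Fin 3}
    {a b : Fin 3 → ℝ} (hU : UG h G i a b) (hab : a i < b i) :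
    ∀ᵐ p : Eu 3, (∀ j, j ≠ i → a j < p j ∧ p j < b j) → ∀ s t : ℝ, s ∈ Icc (a i) (b i) →
      t ∈ Icc (a i) (b i) →
      edist (h (line p i s)) (h (line p i t)) ≤ ∫⁻ r in Ioo (a i) (b i), G (line p i r) := by
  unfold UG at hU
  filter_upwards [hU] with p hp hpj s t hs ht
  have hp := hp hpj
  obtain ⟨C, hC⟩ : ∃ C, C = ∫⁻ r in Ioo (a i) (b i), G (line p i r) := ⟨_, rfl⟩
  have hp' : ∀ u v : ℝ, a i < u → u ≤ v → v < b i →
      edist (h (line p i u)) (h (line p i v)) ≤ C := by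
    intro u v hu huv hv
    refine le_trans (hp u v hu huv hv) ?_
    rw [hC]
    exact lintegral_mono_set (Ioo_subset_Ioo hu.le hv.le)
  rw [← hC]
  have h1 : Continuous fun q : ℝ × ℝ => h (line p i q.1) :=
    hh.comp ((continuous_line_right p i).comp continuous_fst)
  have h2 : Continuous fun q : ℝ × ℝ => h (line p i q.2) :=
    hh.comp ((continuous_line_right p i).comp continuous_snd)
  refine closed_sq (f := fun q : ℝ × ℝ => edist (h (line p i q.1)) (h (line p i q.2)))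
    (h1.edist h2) hab ?_ hs ht
  intro q hq
  have hu : q.1 ∈ Ioo (a i) (b i) := hq.1
  have hv : q.2 ∈ Ioo (a i) (b i) := hq.2
  rcases le_total q.1 q.2 with huv | huv
  · exact hp' _ _ hu.1 huv hv.2
  · show edist (h (line p i q.1)) (h (line p i q.2)) ≤ C
    rw [edist_comm]
    exact hp' _ _ hv.1 huv hu.2

/-- translation of a set integral -/
theorem trans_le {S T : Set (Eu 3)} (hS : MeasurableSet S) (hT : MeasurableSet T) (c : Eu 3)
    (h : ∀ p ∈ S, p + c ∈ T) (F : Eu 3 → ℝ≥0∞) :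
    ∫⁻ p in S, F (p + c) ≤ ∫⁻ p in T, F p := by
  rw [← lintegral_indicator hS, ← lintegral_indicator hT,
    ← lintegral_add_right_eq_self (T.indicator F) c]
  apply lintegral_mono
  intro p
  show S.indicator (fun p => F (p + c)) p ≤ T.indicator F (p + c)
  by_cases hp : p ∈ S
  · rw [indicator_of_mem hp, indicator_of_mem (h p hp)]
  · rw [indicator_of_notMem hp]
    exact bot_le

/-- the base point of the old loop -/
def a0 : Eu 3 := WithLp.toLp 2 ![-1, 1, 3]

/-- the base point of the new loop -/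
def b0 : Eu 3 := WithLp.toLp 2 ![6, 3, 1]

/-- the translation vector -/
def c0 : Eu 3 := WithLp.toLp 2 ![13, 0, 0]

theorem mem_sb0 (x : Eu 3) : x ∈ sb 0 ↔ (-7 < x 0 ∧ x 0 < 0) ∧ (0 < x 1 ∧ x 1 < 7) ∧
    (0 < x 2 ∧ x 2 < 7) := by
  unfold sb ob
  simp [Fin.forall_fin_succ, sbL, sbU]

theorem mem_sb1 (x : Eu 3) : x ∈ sb 1 ↔ (6 < x 0 ∧ x 0 < 13) ∧ (0 < x 1 ∧ x 1 < 7) ∧
    (0 < x 2 ∧ x 2 < 7) := by
  unfold sb ob
  simp [Fin.forall_fin_succ, sbL, sbU]

theorem mem_Q (x : Eu 3) : x ∈ Q ↔ (0 < x 0 ∧ x 0 < 1) ∧ (0 < x 1 ∧ x 1 < 1) ∧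
    (0 < x 2 ∧ x 2 < 1) := by
  unfold Q ob
  simp [Fin.forall_fin_succ]

theorem a0_sb {τ : Eu 3} (h : τ ∈ Q) : τ + a0 ∈ sb 0 := by
  rw [mem_Q] at h
  rw [mem_sb0]
  obtain ⟨⟨h1, h2⟩, ⟨h3, h4⟩, ⟨h5, h6⟩⟩ := h
  have e0 : (τ + a0) 0 = τ 0 + -1 := rfl
  have e1 : (τ + a0) 1 = τ 1 + 1 := rfl
  have e2 : (τ + a0) 2 = τ 2 + 3 := rfl
  rw [e0, e1, e2]
  refine ⟨⟨?_, ?_⟩, ⟨?_, ?_⟩, ⟨?_, ?_⟩⟩ <;> linarith

theorem b0_sb {τ : Eu 3} (h : τ ∈ Q) : τ + b0 ∈ sb 1 := by
  rw [mem_Q] at h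
  rw [mem_sb1]
  obtain ⟨⟨h1, h2⟩, ⟨h3, h4⟩, ⟨h5, h6⟩⟩ := h
  have e0 : (τ + b0) 0 = τ 0 + 6 := rfl
  have e1 : (τ + b0) 1 = τ 1 + 3 := rfl
  have e2 : (τ + b0) 2 = τ 2 + 1 := rfl
  rw [e0, e1, e2]
  refine ⟨⟨?_, ?_⟩, ⟨?_, ?_⟩, ⟨?_, ?_⟩⟩ <;> linarith

theorem c0_sb {p : Eu 3} (h : p ∈ sb 0) : p + c0 ∈ sb 1 := by
  rw [mem_sb0] at h
  rw [mem_sb1]
  obtain ⟨⟨h1, h2⟩, ⟨h3, h4⟩, ⟨h5, h6⟩⟩ := h
  have e0 : (p + c0) 0 = p 0 + 13 := rfl
  have e1 : (p + c0) 1 = p 1 + 0 := rfl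
  have e2 : (p + c0) 2 = p 2 + 0 := rfl
  rw [e0, e1, e2]
  refine ⟨⟨?_, ?_⟩, ⟨?_, ?_⟩, ⟨?_, ?_⟩⟩ <;> linarith

theorem line_c0 (p : Eu 3) : line p 0 (p 0 + 13) = p + c0 := by
  ext j
  rw [line_apply]
  fin_cases j
  · rfl
  · show p 1 = p 1 + 0
    rw [add_zero]
  · show p 2 = p 2 + 0
    rw [add_zero]

theorem a0_loop (τ : Eu 3) : τ + a0 ∈ loopA τ := by
  have e0 : (τ + a0) 0 = τ 0 + -1 := rfl
  have e1 : (τ + a0) 1 = τ 1 + 1 := rfl
  have e2 : (τ + a0) 2 = τ 2 + 3 := rfl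
  unfold loopA rectA
  simp only [mem_ofPred_eq, e0, e1, e2]
  refine ⟨by ring, ⟨by linarith, by linarith⟩, ⟨by linarith, by linarith⟩, Or.inl (by ring)⟩

theorem b0_loop (τ : Eu 3) : τ + b0 ∈ loopB τ := by
  have e0 : (τ + b0) 0 = τ 0 + 6 := rfl
  have e1 : (τ + b0) 1 = τ 1 + 3 := rfl
  have e2 : (τ + b0) 2 = τ 2 + 1 := rfl
  unfold loopB rectB
  simp only [mem_ofPred_eq, e0, e1, e2]
  refine ⟨by ring, ⟨by linarith, by linarith⟩, ⟨by linarith, by linarith⟩,
    Or.inr (Or.inl (by ring))⟩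

/-- the two base points are close -/
theorem base_close (hK : LinkStmt) (h : Eu 3 ≃ₜ Eu 3) {τ : Eu 3} (hτ : τ ∈ Q) {lA lB : ℝ≥0∞}
    (hA : Metric.ediam (h '' loopA τ) ≤ lA) (hB : Metric.ediam (h '' loopB τ) ≤ lB) :
    edist (h (τ + a0)) (h (τ + b0)) ≤ 2 * lA + lB := by
  rw [mem_Q] at hτ
  obtain ⟨⟨h1, h2⟩, ⟨h3, h4⟩, ⟨h5, h6⟩⟩ := hτ
  obtain ⟨x, hx, y, hy, hxy⟩ := hK h (-1 + τ 0) (4 + τ 0) (2 + τ 0) (6 + τ 0) (1 + τ 1) (5 + τ 1)
    (3 + τ 1) (1 + τ 2) (5 + τ 2) (3 + τ 2) (by linarith) (by linarith) (by linarith)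
    (by linarith) (by linarith) (by linarith) (by linarith)
  have e1 : edist (h (τ + a0)) (h x) ≤ lA :=
    le_trans (Metric.edist_le_ediam_of_mem (mem_image_of_mem h (a0_loop τ))
      (mem_image_of_mem h hx)) hA
  have e2 : edist (h y) (h (τ + b0)) ≤ lB :=
    le_trans (Metric.edist_le_ediam_of_mem (mem_image_of_mem h hy)
      (mem_image_of_mem h (b0_loop τ))) hB
  have e3 : edist (h x) (h y) ≤ lA := le_trans hxy hA
  calc edist (h (τ + a0)) (h (τ + b0)) ≤ edist (h (τ + a0)) (h x) + edist (h x) (h y) +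
        edist (h y) (h (τ + b0)) := edist_triangle4 _ _ _ _
    _ ≤ lA + lA + lB := add_le_add (add_le_add e1 e3) e2
    _ = 2 * lA + lB := by rw [two_mul]

/-- the jump -/
def DD (h : Eu 3 → Eu 3) (p : Eu 3) : ℝ≥0∞ := edist (h (line p 0 0)) (h (line p 0 6))

theorem measurable_DD {h : Eu 3 → Eu 3} (hh : Continuous h) : Measurable (DD h) := by
  have h1 : Continuous fun p : Eu 3 => h (line p 0 0) := hh.comp (continuous_line_left 0 0)
  have h2 : Continuous fun p : Eu 3 => h (line p 0 6) := hh.comp (continuous_line_left 0 6)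
  exact (h1.edist h2).measurable

theorem DD_line (h : Eu 3 → Eu 3) (p : Eu 3) (r : ℝ) : DD h (line p 0 r) = DD h p := by
  unfold DD
  rw [line_line, line_line]

theorem ton0 {F : Eu 3 → ℝ≥0∞} (hF : Measurable F) (s t : ℝ) :
    ∫⁻ p in sb 0, ∫⁻ r in Ioo s t, F (line p 0 r) = 7 * ∫⁻ p in ob ![s, 0, 0] ![t, 7, 7], F p := by
  unfold sb
  rw [ton hF]
  have h1 : ENNReal.ofReal (((sbU 0 0 : ℤ) : ℝ) - ((sbL 0 0 : ℤ) : ℝ)) = 7 := by
    have : ((sbU 0 0 : ℤ) : ℝ) - ((sbL 0 0 : ℤ) : ℝ) = 7 := by norm_num [sbL, sbU]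
    rw [this]
    norm_num
  have h2 : Function.update (fun j => ((sbL 0 j : ℤ) : ℝ)) 0 s = ![s, 0, 0] := by
    funext j
    fin_cases j <;> simp [sbL]
  have h3 : Function.update (fun j => ((sbU 0 j : ℤ) : ℝ)) 0 t = ![t, 7, 7] := by
    funext j
    fin_cases j <;> simp [sbU]
  rw [h1, h2, h3]

theorem box0 : ob ![-7, 0, 0] ![0, 7, 7] = sb 0 := by
  ext x
  rw [mem_sb0]
  unfold ob
  simp [Fin.forall_fin_succ]

theorem box1 : ob ![6, 0, 0] ![13, 7, 7] = sb 1 := by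
  ext x
  rw [mem_sb1]
  unfold ob
  simp [Fin.forall_fin_succ]

theorem measurableSet_sb (k : Fin 8) : MeasurableSet (sb k) := measurableSet_ob _ _

/-- the passage to the faces of the boxes -/
theorem DD_le {h : Eu 3 → Eu 3} (hh : Continuous h) {G : Eu 3 → ℝ≥0∞}
    (hU : ∀ k j, UG h G j (fun l => sbL k l) (fun l => sbU k l)) :
    ∀ᵐ p : Eu 3, p ∈ sb 0 → DD h p ≤ (∫⁻ r in Ioo (-7) 0, G (line p 0 r)) +
      edist (h p) (h (p + c0)) + ∫⁻ r in Ioo 6 13, G (line p 0 r) := by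
  have hl0 : ((sbL 0 0 : ℤ) : ℝ) = -7 := by norm_num [sbL]
  have hu0 : ((sbU 0 0 : ℤ) : ℝ) = 0 := by norm_num [sbU]
  have hl1 : ((sbL 1 0 : ℤ) : ℝ) = 6 := by norm_num [sbL]
  have hu1 : ((sbU 1 0 : ℤ) : ℝ) = 13 := by norm_num [sbU]
  have h0 := ug_close hh (hU 0 0) (by rw [hl0, hu0]; norm_num)
  have h1 := ug_close hh (hU 1 0) (by rw [hl1, hu1]; norm_num)
  rw [hl0, hu0] at h0
  rw [hl1, hu1] at h1
  filter_upwards [h0, h1] with p hp0 hp1 hp
  rw [mem_sb0] at hp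
  obtain ⟨⟨a1, a2⟩, ⟨a3, a4⟩, ⟨a5, a6⟩⟩ := hp
  have q0 : ∀ j : Fin 3, j ≠ 0 → ((sbL 0 j : ℤ) : ℝ) < p j ∧ p j < ((sbU 0 j : ℤ) : ℝ) := by
    intro j hj
    fin_cases j
    · exact absurd rfl hj
    · constructor
      · simpa [sbL] using a3
      · simpa [sbU] using a4
    · constructor
      · simpa [sbL] using a5
      · simpa [sbU] using a6
  have q1 : ∀ j : Fin 3, j ≠ 0 → ((sbL 1 j : ℤ) : ℝ) < p j ∧ p j < ((sbU 1 j : ℤ) : ℝ) := by
    intro j hj
    fin_cases j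
    · exact absurd rfl hj
    · constructor
      · simpa [sbL] using a3
      · simpa [sbU] using a4
    · constructor
      · simpa [sbL] using a5
      · simpa [sbU] using a6
  have e0 := hp0 q0 0 (p 0) ⟨by norm_num, le_refl _⟩ ⟨a1.le, a2.le⟩
  have e1 := hp1 q1 (p 0 + 13) 6 ⟨by linarith, by linarith⟩ ⟨le_refl _, by norm_num⟩
  rw [line_self] at e0
  rw [line_c0] at e1
  unfold DD
  exact le_trans (edist_triangle4 _ _ _ _) (add_le_add (add_le_add e0 (le_refl _)) e1)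

theorem measurable_int {h : Eu 3 → Eu 3} (hh : Continuous h) (S : Set (Eu 3)) :
    Measurable fun p : Eu 3 => ∫⁻ y in S, edist (h p) (h y) := by
  have h1 : Continuous fun q : Eu 3 × Eu 3 => edist (h q.1) (h q.2) :=
    (hh.comp continuous_fst).edist (hh.comp continuous_snd)
  exact h1.measurable.lintegral_prod_right'

/-- the average over the base points -/
theorem E_pt (hA : LoopAStmt) (hB : LoopBStmt) (hK : LinkStmt) (h : Eu 3 ≃ₜ Eu 3)
    {G : Eu 3 → ℝ≥0∞} (hG : Measurable G)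
    (hU : ∀ k j, UG h G j (fun l => sbL k l) (fun l => sbU k l)) (p : Eu 3) :
    edist (h p) (h (p + c0)) ≤ (∫⁻ y in sb 0, edist (h p) (h y)) + 60 * (∫⁻ x in WW, G x) +
      ∫⁻ y in sb 1, edist (h y) (h (p + c0)) := by
  obtain ⟨lA, hlAm, hlA, hlAi⟩ := hA h G h.continuous hG hU
  obtain ⟨lB, hlBm, hlB, hlBi⟩ := hB h G h.continuous hG hU
  have hQ : MeasurableSet Q := measurableSet_ob _ _
  have hae : ∀ᵐ τ ∂(volume.restrict Q), edist (h (τ + a0)) (h (τ + b0)) ≤ 2 * lA τ + lB τ := by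
    rw [ae_restrict_iff' hQ]
    filter_upwards [hlA, hlB] with τ h1 h2 hτ
    exact base_close hK h hτ (h1 hτ) (h2 hτ)
  have m1 : Measurable fun τ : Eu 3 => edist (h p) (h (τ + a0)) :=
    ((continuous_const).edist (h.continuous.comp (continuous_id.add continuous_const))).measurable
  have m2 : Measurable fun τ : Eu 3 => 2 * lA τ + lB τ := (hlAm.const_mul 2).add hlBm
  have m3 : Measurable fun τ : Eu 3 => edist (h p) (h (τ + a0)) + (2 * lA τ + lB τ) := m1.add m2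
  calc edist (h p) (h (p + c0)) = ∫⁻ _ in Q, edist (h p) (h (p + c0)) := by
        rw [setLIntegral_const, volume_Q, mul_one]
    _ ≤ ∫⁻ τ in Q, (edist (h p) (h (τ + a0)) + (2 * lA τ + lB τ) +
          edist (h (τ + b0)) (h (p + c0))) := by
        apply lintegral_mono_ae
        filter_upwards [hae] with τ hτ
        exact le_trans (edist_triangle4 _ _ _ _)
          (add_le_add (add_le_add (le_refl _) hτ) (le_refl _))
    _ = (∫⁻ τ in Q, edist (h p) (h (τ + a0))) + (∫⁻ τ in Q, (2 * lA τ + lB τ)) +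
          ∫⁻ τ in Q, edist (h (τ + b0)) (h (p + c0)) := by
        rw [lintegral_add_left m3, lintegral_add_left m1]
    _ ≤ _ := by
        apply add_le_add
        · apply add_le_add
          · exact trans_le hQ (measurableSet_sb 0) a0 (fun τ hτ => a0_sb hτ)
              (fun y => edist (h p) (h y))
          · rw [lintegral_add_left (hlAm.const_mul 2), lintegral_const_mul 2 hlAm]
            calc 2 * (∫⁻ τ in Q, lA τ) + ∫⁻ τ in Q, lB τ
                ≤ 2 * (20 * ∫⁻ x in WW, G x) + 20 * ∫⁻ x in WW, G x :=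
                  add_le_add (mul_le_mul_right hlAi 2) hlBi
              _ = 60 * ∫⁻ x in WW, G x := by
                  rw [← mul_assoc, ← add_mul]
                  norm_num
        · exact trans_le hQ (measurableSet_sb 1) b0 (fun τ hτ => b0_sb hτ)
            (fun y => edist (h y) (h (p + c0)))

theorem E_le (hP : PoinStmt) (hA : LoopAStmt) (hB : LoopBStmt) (hK : LinkStmt) (h : Eu 3 ≃ₜ Eu 3)
    {G : Eu 3 → ℝ≥0∞} (hG : Measurable G)
    (hU : ∀ k j, UG h G j (fun l => sbL k l) (fun l => sbU k l)) :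
    ∫⁻ p in sb 0, edist (h p) (h (p + c0)) ≤
      ((∑ j, ENNReal.ofReal (((sbU 0 j : ℤ) : ℝ) - ((sbL 0 j : ℤ) : ℝ))) * volume (sb 0) +
        60 * volume (sb 0) +
        (∑ j, ENNReal.ofReal (((sbU 1 j : ℤ) : ℝ) - ((sbL 1 j : ℤ) : ℝ))) * volume (sb 1)) *
        ∫⁻ x in WW, G x := by
  have hlt : ∀ k : Fin 8, ∀ j : Fin 3, ((sbL k j : ℤ) : ℝ) < ((sbU k j : ℤ) : ℝ) := by
    intro k j
    exact_mod_cast (show sbL k j < sbU k j by revert k j; decide)
  have hsub : ∀ k : Fin 8, ∫⁻ x in sb k, G x ≤ ∫⁻ x in WW, G x := fun k =>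
    lintegral_mono_set (subset_iUnion sb k)
  have hP0 : ∫⁻ x in sb 0, ∫⁻ y in sb 0, edist (h x) (h y) ≤
      (∑ j, ENNReal.ofReal (((sbU 0 j : ℤ) : ℝ) - ((sbL 0 j : ℤ) : ℝ))) * volume (sb 0) *
        ∫⁻ x in WW, G x :=
    le_trans (hP h G h.continuous hG _ _ (hlt 0) (hU 0)) (mul_le_mul_right (hsub 0) _)
  have hP1 : ∫⁻ x in sb 1, ∫⁻ y in sb 1, edist (h x) (h y) ≤
      (∑ j, ENNReal.ofReal (((sbU 1 j : ℤ) : ℝ) - ((sbL 1 j : ℤ) : ℝ))) * volume (sb 1) *
        ∫⁻ x in WW, G x :=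
    le_trans (hP h G h.continuous hG _ _ (hlt 1) (hU 1)) (mul_le_mul_right (hsub 1) _)
  have m1 := measurable_int h.continuous (sb 0)
  have m2 : Measurable fun p : Eu 3 => (∫⁻ y in sb 0, edist (h p) (h y)) +
      60 * (∫⁻ x in WW, G x) := m1.add measurable_const
  calc ∫⁻ p in sb 0, edist (h p) (h (p + c0)) ≤
        ∫⁻ p in sb 0, ((∫⁻ y in sb 0, edist (h p) (h y)) + 60 * (∫⁻ x in WW, G x) +
          ∫⁻ y in sb 1, edist (h y) (h (p + c0))) :=
        lintegral_mono (fun p => E_pt hA hB hK h hG hU p)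
    _ = (∫⁻ p in sb 0, ∫⁻ y in sb 0, edist (h p) (h y)) +
          (60 * (∫⁻ x in WW, G x)) * volume (sb 0) +
          ∫⁻ p in sb 0, ∫⁻ y in sb 1, edist (h y) (h (p + c0)) := by
        rw [lintegral_add_left m2, lintegral_add_left m1, setLIntegral_const]
    _ ≤ (∫⁻ p in sb 0, ∫⁻ y in sb 0, edist (h p) (h y)) +
          (60 * (∫⁻ x in WW, G x)) * volume (sb 0) +
          ∫⁻ q in sb 1, ∫⁻ y in sb 1, edist (h q) (h y) := by
        apply add_le_add (le_refl _)
        refine le_trans (trans_le (measurableSet_sb 0) (measurableSet_sb 1) c0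
          (fun p hp => c0_sb hp) (fun q => ∫⁻ y in sb 1, edist (h y) (h q))) ?_
        apply le_of_eq
        apply lintegral_congr
        intro q
        apply lintegral_congr
        intro y
        exact edist_comm _ _
    _ ≤ _ := by
        rw [add_mul, add_mul]
        refine add_le_add (add_le_add hP0 (le_of_eq ?_)) hP1
        rw [mul_assoc, mul_assoc, mul_comm (∫⁻ x in WW, G x)]

theorem gad (hP : PoinStmt) (hA : LoopAStmt) (hB : LoopBStmt) (hK : LinkStmt) : GadStmt := by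
  obtain ⟨C₁, hC₁⟩ : ∃ C₁ : ℝ≥0∞, C₁ =
    (∑ j, ENNReal.ofReal (((sbU 0 j : ℤ) : ℝ) - ((sbL 0 j : ℤ) : ℝ))) * volume (sb 0) +
        60 * volume (sb 0) +
        (∑ j, ENNReal.ofReal (((sbU 1 j : ℤ) : ℝ) - ((sbL 1 j : ℤ) : ℝ))) * volume (sb 1) :=
    ⟨_, rfl⟩
  have hV : ∀ k, volume (sb k) ≠ ⊤ := fun k => volume_ob_ne_top _ _
  have hS : ∀ k : Fin 8, (∑ j, ENNReal.ofReal (((sbU k j : ℤ) : ℝ) - ((sbL k j : ℤ) : ℝ))) ≠ ⊤ := by
    intro k
    rw [ENNReal.sum_ne_top]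
    intro j _
    exact ENNReal.ofReal_ne_top
  have hC₁' : C₁ ≠ ⊤ := by
    rw [hC₁]
    exact ENNReal.add_ne_top.2 ⟨ENNReal.add_ne_top.2 ⟨ENNReal.mul_ne_top (hS 0) (hV 0),
      ENNReal.mul_ne_top (by norm_num) (hV 0)⟩, ENNReal.mul_ne_top (hS 1) (hV 1)⟩
  refine ⟨7⁻¹ * (7 + C₁ + 7), ?_, ?_⟩
  · exact ENNReal.mul_ne_top (by norm_num) (ENNReal.add_ne_top.2
      ⟨ENNReal.add_ne_top.2 ⟨by norm_num, hC₁'⟩, by norm_num⟩)
  · intro h G hG hU α β hαβ
    have hsub : ∀ k : Fin 8, ∫⁻ x in sb k, G x ≤ ∫⁻ x in WW, G x := fun k =>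
      lintegral_mono_set (subset_iUnion sb k)
    have hE := E_le hP hA hB hK h hG hU
    rw [← hC₁] at hE
    obtain ⟨I, hI⟩ : ∃ I, I = ∫⁻ x in WW, G x := ⟨_, rfl⟩
    rw [← hI] at hE hsub ⊢
    have mD := measurable_DD h.continuous
    -- the integral over the box
    have m1 : Measurable fun p : Eu 3 => ∫⁻ r in Ioo (-7 : ℝ) 0, G (line p 0 r) :=
      (H47.measurable_Gline hG 0).lintegral_prod_right'
    have m2 : Measurable fun p : Eu 3 => edist (h p) (h (p + c0)) :=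
      ((h.continuous).edist (h.continuous.comp (continuous_id.add continuous_const))).measurable
    have m3 : Measurable fun p : Eu 3 => (∫⁻ r in Ioo (-7 : ℝ) 0, G (line p 0 r)) +
        edist (h p) (h (p + c0)) := m1.add m2
    have hD : ∫⁻ p in sb 0, DD h p ≤ (7 + C₁ + 7) * I := by
      have hae := DD_le h.continuous hU
      calc ∫⁻ p in sb 0, DD h p ≤ ∫⁻ p in sb 0, ((∫⁻ r in Ioo (-7) 0, G (line p 0 r)) +
            edist (h p) (h (p + c0)) + ∫⁻ r in Ioo 6 13, G (line p 0 r)) := by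
            apply lintegral_mono_ae
            rw [ae_restrict_iff' (measurableSet_sb 0)]
            exact hae
        _ = (∫⁻ p in sb 0, ∫⁻ r in Ioo (-7) 0, G (line p 0 r)) +
            (∫⁻ p in sb 0, edist (h p) (h (p + c0))) +
            ∫⁻ p in sb 0, ∫⁻ r in Ioo 6 13, G (line p 0 r) := by
            rw [lintegral_add_left m3, lintegral_add_left m1]
        _ = 7 * (∫⁻ p in sb 0, G p) + (∫⁻ p in sb 0, edist (h p) (h (p + c0))) +
            7 * ∫⁻ p in sb 1, G p := by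
            rw [ton0 hG, ton0 hG, box0, box1]
        _ ≤ 7 * I + C₁ * I + 7 * I :=
            add_le_add (add_le_add (mul_le_mul_right (hsub 0) 7) hE) (mul_le_mul_right (hsub 1) 7)
        _ = (7 + C₁ + 7) * I := by rw [add_mul, add_mul]
    have hcol : ENNReal.ofReal (β - α) * ∫⁻ p in sb 0, DD h p =
        7 * ∫⁻ p in ob ![α, 0, 0] ![β, 7, 7], DD h p := by
      rw [← ton0 mD, ← lintegral_const_mul _ mD]
      apply lintegral_congr
      intro p
      have h1 : (fun r : ℝ => DD h (line p 0 r)) = fun _ => DD h p := by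
        funext r
        exact DD_line h p r
      rw [h1, setLIntegral_const, Real.volume_Ioo, mul_comm]
    have h7 : (7 : ℝ≥0∞)⁻¹ * 7 = 1 := ENNReal.inv_mul_cancel (by norm_num) (by norm_num)
    calc ∫⁻ x in ob ![α, 0, 0] ![β, 7, 7], edist (h (line x 0 0)) (h (line x 0 6))
        = 7⁻¹ * (7 * ∫⁻ p in ob ![α, 0, 0] ![β, 7, 7], DD h p) := by
          rw [← mul_assoc, h7, one_mul]
          rfl
      _ = 7⁻¹ * (ENNReal.ofReal (β - α) * ∫⁻ p in sb 0, DD h p) := by rw [hcol]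
      _ ≤ 7⁻¹ * (ENNReal.ofReal (β - α) * ((7 + C₁ + 7) * I)) :=
          mul_le_mul_right (mul_le_mul_right hD _) _
      _ = 7⁻¹ * (7 + C₁ + 7) * ENNReal.ofReal (β - α) * I := by
          rw [mul_assoc, mul_assoc, mul_left_comm (ENNReal.ofReal (β - α))]

end Pool.Agent.Helper83_CNED.H59
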