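import Pool.Agent.Helper83_CNED.Stmt

/-!
Module LAM of squad CNED (MP_f60983_an): the limit of the labels.
-/

open MeasureTheory Set Topology Filter

open scoped ENNReal

noncomputable section

namespace Pool.Agent.Helper83_CNED.H59

/-- the normalised label -/
def al (m : ℕ) (x : Eu 3) : ℝ := (lab m (idx m x) : ℝ) / 2 ^ m

theorem al_step (hC : ChildStmt) (m : ℕ) (x : Eu 3) :
    dist (al m x) (al (m + 1) x) ≤ 2 / 2 / 2 ^ m := by
  have h := hC.2.1 m (idx (m + 1) x)
  rw [idx_par] at h
  have h1 : |(lab (m + 1) (idx (m + 1) x) : ℝ) - 2 * (lab m (idx m x) : ℝ)| ≤ 2 := by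
    exact_mod_cast h
  have h2 : al m x - al (m + 1) x =
      -(((lab (m + 1) (idx (m + 1) x) : ℝ) - 2 * (lab m (idx m x) : ℝ)) / 2 ^ (m + 1)) := by
    unfold al
    rw [pow_succ]
    field_simp
    ring
  rw [Real.dist_eq, h2, abs_neg, abs_div, abs_of_pos (by positivity : (0 : ℝ) < 2 ^ (m + 1)),
    pow_succ]
  rw [div_div, mul_comm ((2 : ℝ) ^ m) 2]
  exact div_le_div_of_nonneg_right h1 (by positivity)

theorem al_even (hC : ChildStmt) {m : ℕ} {x : Eu 3} (h : Even (lab m (idx m x))) (k : ℕ) :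
    Even (lab (m + k) (idx (m + k) x)) ∧ al (m + k) x = al m x := by
  induction k with
  | zero => exact ⟨h, rfl⟩
  | succ k ih =>
    have h1 := hC.1 (m + k) (idx (m + k + 1) x)
    rw [idx_par] at h1
    have h2 := h1 ih.1
    constructor
    · rw [← add_assoc, h2]
      exact even_two_mul _
    · rw [← ih.2, ← add_assoc]
      unfold al
      rw [h2, pow_succ]
      push_cast
      field_simp

theorem floor_close {u v : ℝ} (h : |u - v| < 1) : |⌊u⌋ - ⌊v⌋| ≤ 1 := by
  have h1 := abs_lt.1 h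
  have h2 := Int.floor_le u
  have h3 := Int.lt_floor_add_one u
  have h4 := Int.floor_le v
  have h5 := Int.lt_floor_add_one v
  have h6 : (⌊u⌋ : ℝ) < ⌊v⌋ + 2 := by linarith
  have h7 : (⌊v⌋ : ℝ) < ⌊u⌋ + 2 := by linarith
  have h8 : ⌊u⌋ < ⌊v⌋ + 2 := by exact_mod_cast h6
  have h9 : ⌊v⌋ < ⌊u⌋ + 2 := by exact_mod_cast h7
  rw [abs_le]
  omega

theorem al_close (hL : LipStmt) (m : ℕ) {x y : Eu 3} (h : dist y x < 1 / RR m) :
    dist (al m y) (al m x) ≤ 1 / 2 ^ m := by
  have h1 : |lab m (idx m y) - lab m (idx m x)| ≤ 1 := by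
    apply hL
    intro j
    unfold idx
    apply floor_close
    have h2 : |y j - x j| ≤ dist y x := by
      have := PiLp.norm_apply_le (y - x) j
      rw [dist_eq_norm]
      simpa [Real.norm_eq_abs] using this
    have h3 : |y j - x j| < 1 / RR m := lt_of_le_of_lt h2 h
    have h4 := RRr_pos m
    rw [← mul_sub, abs_mul, abs_of_pos h4]
    calc (RR m : ℝ) * |y j - x j| < RR m * (1 / RR m) := mul_lt_mul_of_pos_left h3 h4
      _ = 1 := by field_simp
  have h2 : |(lab m (idx m y) : ℝ) - (lab m (idx m x) : ℝ)| ≤ 1 := by exact_mod_cast h1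
  unfold al
  rw [Real.dist_eq, ← sub_div, abs_div, abs_of_pos (by positivity : (0 : ℝ) < 2 ^ m)]
  exact div_le_div_of_nonneg_right h2 (by positivity)

theorem lam (hL : LipStmt) (hC : ChildStmt) : LamStmt := by
  have hlim : ∀ x : Eu 3, ∃ l : ℝ, Tendsto (fun m => al m x) atTop (𝓝 l) := fun x =>
    cauchySeq_tendsto_of_complete (cauchySeq_of_le_geometric_two (fun m => al_step hC m x))
  choose L hLL using hlim
  have hd : ∀ (x : Eu 3) (m : ℕ), dist (al m x) (L x) ≤ 2 / 2 ^ m := fun x m =>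
    dist_le_of_le_geometric_two_of_tendsto (fun m => al_step hC m x) (hLL x) m
  have hev : ∀ (m : ℕ) (x : Eu 3), Even (lab m (idx m x)) → L x = al m x := by
    intro m x h
    have h1 : Tendsto (fun k => al (k + m) x) atTop (𝓝 (L x)) :=
      (hLL x).comp (tendsto_add_atTop_nat m)
    have h2 : (fun k => al (k + m) x) = fun _ => al m x := by
      funext k
      rw [add_comm]
      exact (al_even hC h k).2
    rw [h2] at h1
    exact (tendsto_nhds_unique h1 tendsto_const_nhds)
  refine ⟨L, ?_, ?_, ?_, ?_⟩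
  · rw [Metric.continuous_iff]
    intro x ε hε
    obtain ⟨m, hm⟩ : ∃ m : ℕ, 5 / 2 ^ m < ε := by
      obtain ⟨m, hm⟩ := exists_pow_lt_of_lt_one (show (0 : ℝ) < ε / 5 by positivity)
        (show (1 / 2 : ℝ) < 1 by norm_num)
      refine ⟨m, ?_⟩
      rw [one_div, inv_pow] at hm
      rw [div_eq_mul_inv]
      linarith
    refine ⟨1 / RR m, div_pos one_pos (RRr_pos m), ?_⟩
    intro y hy
    have h1 := al_close hL m hy
    have h2 := hd x m
    have h3 := hd y m
    calc dist (L y) (L x) ≤ dist (L y) (al m y) + dist (al m y) (al m x) + dist (al m x) (L x) :=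
          dist_triangle4 _ _ _ _
      _ ≤ 2 / 2 ^ m + 1 / 2 ^ m + 2 / 2 ^ m := by
          rw [dist_comm (L y)]
          exact add_le_add (add_le_add h3 h1) h2
      _ = 5 / 2 ^ m := by ring
      _ < ε := hm
  · intro x hx
    unfold UU at hx
    obtain ⟨m, hm⟩ := Set.mem_iUnion.1 hx
    have h1 : x ∈ {x : Eu 3 | Even (lab m (idx m x))} := interior_subset hm
    exact ⟨lab m (idx m x), m, hev m x h1⟩
  · intro x hx
    have h0 : idx 0 x = 0 := by
      funext j
      unfold idx
      have h1 := hx j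
      rw [Int.floor_eq_iff]
      simp only [RR, Nat.cast_one, one_mul, Pi.zero_apply, Int.cast_zero]
      exact ⟨h1.1.le, by linarith [h1.2]⟩
    have h1 : lab 0 (idx 0 x) = 0 := by rw [h0]; simp [lab]
    have h2 := hev 0 x (by rw [h1]; exact Even.zero)
    rw [h2]
    unfold al
    rw [h1]
    simp
  · intro x hx
    obtain ⟨j, hj⟩ := hx
    have h0 : 2 ≤ idx 0 x j := by
      unfold idx
      rw [Int.le_floor]
      simp only [RR, Nat.cast_one, one_mul]
      exact_mod_cast hj.le
    have h1 : lab 0 (idx 0 x) = 2 := by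
      have h2 : 2 ≤ |idx 0 x j| := le_trans h0 (le_abs_self _)
      have h3 : 2 ≤ max |idx 0 x 0| (max |idx 0 x 1| |idx 0 x 2|) := by
        fin_cases j
        · exact le_trans h2 (le_max_left _ _)
        · exact le_trans h2 (le_trans (le_max_left _ _) (le_max_right _ _))
        · exact le_trans h2 (le_trans (le_max_right _ _) (le_max_right _ _))
      show min 2 (max |idx 0 x 0| (max |idx 0 x 1| |idx 0 x 2|)) = 2
      exact min_eq_left h3
    have h2 := hev 0 x (by rw [h1]; exact even_two)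
    rw [h2]
    unfold al
    rw [h1]
    norm_num

end Pool.Agent.Helper83_CNED.H59
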